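import Mathlib

/-!
# MP_93a94a_an: periodic convergence in a nonautonomous product-reciprocal difference equation

For coefficients of prime period `p ≥ 2` no positive solution tends to a `(k+2)`-periodic sequence.
-/

set_option autoImplicit false

namespace Pool.Agent.Results.MP_93a94a_an.Never

open Filter Topology Finset

/-- `p` is the prime period of the coefficients: the least positive integer with
`α (n + p) = α n` for all `n` -/
def IsPrimePeriod (α : ℕ → ℝ) (p : ℕ) : Prop :=
  0 < p ∧ (∀ n, α (n + p) = α n) ∧ ∀ q, 0 < q → (∀ n, α (n + q) = α n) → p ≤ q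

/-- `x` is a positive solution of (E).  The index is shifted by `2k+2`, so
`x 0, ..., x (2k+2)` stand for the initial values `x_{-(2k+2)}, ..., x_0`, the first product is
`x_n x_{n-1} ⋯ x_{n-k}` and the second one is `x_{n-k-2} ⋯ x_{n-2k-2}`. -/
def IsPositiveSolution (k : ℕ) (α : ℕ → ℝ) (x : ℕ → ℝ) : Prop :=
  (∀ n, n < 2 * k + 3 → 0 < x n) ∧
    ∀ n, x (n + (2 * k + 3)) =
      α n / ∏ j ∈ range (k + 1), x (n + (k + 2) + j) + 1 / ∏ j ∈ range (k + 1), x (n + j)

/-- `x` tends to a `(k+2)`-periodic solution -/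
def TendsToPeriodicSolution (k : ℕ) (α : ℕ → ℝ) (x : ℕ → ℝ) : Prop :=
  ∃ y : ℕ → ℝ, IsPositiveSolution k α y ∧ (∀ n, y (n + (k + 2)) = y n) ∧
    Tendsto (fun n => x n - y n) atTop (𝓝 0)

section

variable {k p : ℕ} {α x y : ℕ → ℝ}

lemma pos (hα : ∀ n, 0 ≤ α n) (h : IsPositiveSolution k α x) (n : ℕ) : 0 < x n := by
  induction n using Nat.strong_induction_on with
  | _ n ih =>
    rcases lt_or_ge n (2 * k + 3) with hn | hn
    · exact h.1 n hn
    · obtain ⟨m, rfl⟩ : ∃ m, n = m + (2 * k + 3) := ⟨n - (2 * k + 3), by omega⟩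
      rw [h.2 m]
      have h1 : 0 < ∏ j ∈ range (k + 1), x (m + (k + 2) + j) :=
        Finset.prod_pos fun j hj => ih _ (by rw [mem_range] at hj; omega)
      have h2 : 0 < ∏ j ∈ range (k + 1), x (m + j) :=
        Finset.prod_pos fun j hj => ih _ (by rw [mem_range] at hj; omega)
      have h3 := hα m
      positivity

/-- there is no positive `(k+2)`-periodic solution -/
lemma no_periodic (hα : ∀ n, 0 ≤ α n) (hp : IsPrimePeriod α p) (hp2 : 2 ≤ p)
    (h : IsPositiveSolution k α y) (hper : ∀ n, y (n + (k + 2)) = y n) : False := by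
  have hpos := pos hα h
  -- products over a full period are constant
  have hconst : ∀ n, ∏ j ∈ range (k + 2), y (n + 1 + j) = ∏ j ∈ range (k + 2), y (n + j) := by
    intro n
    have h1 : ∏ j ∈ range (k + 3), y (n + j) = (∏ j ∈ range (k + 2), y (n + j)) * y (n + (k + 2)) :=
      Finset.prod_range_succ _ _
    have h2 : ∏ j ∈ range (k + 3), y (n + j) =
        (∏ j ∈ range (k + 2), y (n + (j + 1))) * y (n + 0) := Finset.prod_range_succ' _ _
    rw [h1, hper, add_zero] at h2
    have h3 := mul_right_cancel₀ (hpos n).ne' h2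
    rw [h3]
    refine Finset.prod_congr rfl fun j _ => ?_
    congr 1
    omega
  have hα1 : ∀ n, α n + 1 = ∏ j ∈ range (k + 2), y (n + (k + 2) + j) := by
    intro n
    have hP : 0 < ∏ j ∈ range (k + 1), y (n + (k + 2) + j) := Finset.prod_pos fun j _ => hpos _
    have hPP : ∏ j ∈ range (k + 1), y (n + j) = ∏ j ∈ range (k + 1), y (n + (k + 2) + j) := by
      refine Finset.prod_congr rfl fun j _ => ?_
      rw [← hper (n + j)]
      congr 1
      omega
    have h1 := h.2 n
    rw [hPP, ← add_div, eq_div_iff hP.ne'] at h1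
    rw [Finset.prod_range_succ, ← h1, mul_comm]
    congr 2
    omega
  have hαc : ∀ n, α (n + 1) = α n := by
    intro n
    have h1 := hα1 n
    have h2 := hα1 (n + 1)
    have h3 := hconst (n + (k + 2))
    have h4 : ∏ j ∈ range (k + 2), y (n + 1 + (k + 2) + j) =
        ∏ j ∈ range (k + 2), y (n + (k + 2) + 1 + j) := by
      refine Finset.prod_congr rfl fun j _ => ?_
      congr 1
      omega
    rw [h4, h3, ← h1] at h2
    linarith
  have := hp.2.2 1 one_pos hαc
  omega

/-- the limit of a positive solution is a positive solution -/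
lemma limit_solution (hα : ∀ n, 0 ≤ α n) (hp : IsPrimePeriod α p)
    (h : IsPositiveSolution k α x) (hper : ∀ n, y (n + (k + 2)) = y n)
    (hlim : Tendsto (fun n => x n - y n) atTop (𝓝 0)) : IsPositiveSolution k α y := by
  have hpos := pos hα h
  -- limits along the common period
  have hperm : ∀ m n, y (n + m * (p * (k + 2))) = y n := by
    have h1 : ∀ l n, y (n + l * (k + 2)) = y n := by
      intro l
      induction l with
      | zero => intro n; simp
      | succ l ih =>
        intro n
        rw [show n + (l + 1) * (k + 2) = (n + (k + 2)) + l * (k + 2) by ring, ih, hper]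
    intro m n
    rw [← mul_assoc]
    exact h1 _ n
  have hαm : ∀ m n, α (n + m * (p * (k + 2))) = α n := by
    have h1 : ∀ l n, α (n + l * p) = α n := by
      intro l
      induction l with
      | zero => intro n; simp
      | succ l ih =>
        intro n
        rw [show n + (l + 1) * p = (n + p) + l * p by ring, ih, hp.2.1]
    intro m n
    rw [show m * (p * (k + 2)) = (m * (k + 2)) * p by ring]
    exact h1 _ n
  have hpk : 0 < p * (k + 2) := Nat.mul_pos hp.1 (by omega)
  have hx : ∀ n, Tendsto (fun m => x (n + m * (p * (k + 2)))) atTop (𝓝 (y n)) := by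
    intro n
    have hsub : Tendsto (fun m : ℕ => n + m * (p * (k + 2))) atTop atTop :=
      tendsto_atTop_mono (fun m => (Nat.le_mul_of_pos_right m hpk).trans (Nat.le_add_left _ _))
        tendsto_id
    have h1 := (hlim.comp hsub).add_const (y n)
    rw [zero_add] at h1
    refine h1.congr fun m => ?_
    show x (n + m * (p * (k + 2))) - y (n + m * (p * (k + 2))) + y n = _
    rw [hperm]
    ring
  have hy0 : ∀ n, 0 ≤ y n := fun n => ge_of_tendsto' (hx n) fun m => (hpos _).le
  -- the limit is positive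
  have hypos : ∀ n, 0 < y n := by
    intro n
    rw [← hper n, ← hper (n + (k + 2)), ← hper (n + (k + 2) + (k + 2))]
    set l := n + (k + 2) + (k + 2) + (k + 2) - (2 * k + 3) with hl
    have hl' : n + (k + 2) + (k + 2) + (k + 2) = l + (2 * k + 3) := by omega
    rw [hl']
    -- `1 ≤ x (l + 2k + 3) * ∏ x (l + j)`
    have h1 : ∀ m, 1 ≤ x (l + (2 * k + 3) + m * (p * (k + 2))) *
        ∏ j ∈ range (k + 1), x (l + j + m * (p * (k + 2))) := by
      intro m
      have h2 := h.2 (l + m * (p * (k + 2)))
      have e1 : l + m * (p * (k + 2)) + (2 * k + 3) = l + (2 * k + 3) + m * (p * (k + 2)) := by ring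
      have e2 : ∏ j ∈ range (k + 1), x (l + m * (p * (k + 2)) + j) =
          ∏ j ∈ range (k + 1), x (l + j + m * (p * (k + 2))) := by
        refine Finset.prod_congr rfl fun j _ => ?_
        congr 1
        ring
      rw [e1, e2] at h2
      have hP : 0 < ∏ j ∈ range (k + 1), x (l + j + m * (p * (k + 2))) :=
        Finset.prod_pos fun j _ => hpos _
      have hP' : 0 < ∏ j ∈ range (k + 1), x (l + m * (p * (k + 2)) + (k + 2) + j) :=
        Finset.prod_pos fun j _ => hpos _
      have h3 := div_nonneg (hα (l + m * (p * (k + 2)))) hP'.le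
      rw [h2, add_mul, one_div, inv_mul_cancel₀ hP.ne']
      have := mul_nonneg h3 hP.le
      linarith
    have h2 : 1 ≤ y (l + (2 * k + 3)) * ∏ j ∈ range (k + 1), y (l + j) := by
      refine ge_of_tendsto' ((hx (l + (2 * k + 3))).mul
        (tendsto_finsetProd _ fun j _ => hx (l + j))) h1
    by_contra hcon
    push Not at hcon
    have h3 : 0 ≤ ∏ j ∈ range (k + 1), y (l + j) := Finset.prod_nonneg fun j _ => hy0 _
    nlinarith
  refine ⟨fun n _ => hypos n, fun n => ?_⟩
  have hP1 : ∏ j ∈ range (k + 1), y (n + (k + 2) + j) ≠ 0 :=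
    (Finset.prod_pos fun j _ => hypos _).ne'
  have hP2 : ∏ j ∈ range (k + 1), y (n + j) ≠ 0 := (Finset.prod_pos fun j _ => hypos _).ne'
  have t1 := hx (n + (2 * k + 3))
  have t2 : Tendsto (fun m => α n / ∏ j ∈ range (k + 1), x (n + (k + 2) + j + m * (p * (k + 2))) +
      1 / ∏ j ∈ range (k + 1), x (n + j + m * (p * (k + 2)))) atTop
      (𝓝 (α n / ∏ j ∈ range (k + 1), y (n + (k + 2) + j) + 1 / ∏ j ∈ range (k + 1), y (n + j))) :=
    (tendsto_const_nhds.div (tendsto_finsetProd _ fun j _ => hx _) hP1).add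
      (tendsto_const_nhds.div (tendsto_finsetProd _ fun j _ => hx _) hP2)
  refine tendsto_nhds_unique t1 (t2.congr fun m => ?_)
  have h2 := h.2 (n + m * (p * (k + 2)))
  rw [hαm] at h2
  have e1 : n + m * (p * (k + 2)) + (2 * k + 3) = n + (2 * k + 3) + m * (p * (k + 2)) := by ring
  have e2 : ∏ j ∈ range (k + 1), x (n + m * (p * (k + 2)) + j) =
      ∏ j ∈ range (k + 1), x (n + j + m * (p * (k + 2))) := by
    refine Finset.prod_congr rfl fun j _ => ?_
    congr 1
    ring
  have e3 : ∏ j ∈ range (k + 1), x (n + m * (p * (k + 2)) + (k + 2) + j) =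
      ∏ j ∈ range (k + 1), x (n + (k + 2) + j + m * (p * (k + 2))) := by
    refine Finset.prod_congr rfl fun j _ => ?_
    congr 1
    ring
  rw [e1, e2, e3] at h2
  exact h2.symm

/-- positive solutions exist -/
lemma exists_solution (k : ℕ) (α : ℕ → ℝ) : ∃ x, IsPositiveSolution k α x := by
  -- the recursion through the vector of the last `2k+3` terms
  let F : ℕ → (ℕ → ℝ) → (ℕ → ℝ) := fun n v j =>
    if j < 2 * k + 2 then v (j + 1) else
      α n / ∏ i ∈ range (k + 1), v (k + 2 + i) + 1 / ∏ i ∈ range (k + 1), v i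
  let V : ℕ → (ℕ → ℝ) := fun n => Nat.rec (fun _ => 1) (fun n v => F n v) n
  have hV0 : V 0 = fun _ => 1 := rfl
  have hVs : ∀ n, V (n + 1) = F n (V n) := fun n => rfl
  have hshift : ∀ j n, j ≤ 2 * k + 2 → V n j = V (n + j) 0 := by
    intro j
    induction j with
    | zero => intro n _; rfl
    | succ j ih =>
      intro n hj
      have h1 := ih (n + 1) (by omega)
      rw [hVs n] at h1
      have h2 : F n (V n) j = V n (j + 1) := if_pos (by omega)
      rw [h2] at h1
      rw [h1, show n + 1 + j = n + (j + 1) by omega]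
  refine ⟨fun n => V n 0, fun n hn => ?_, fun n => ?_⟩
  · show 0 < V n 0
    have h1 := hshift n 0 (by omega)
    rw [zero_add, hV0] at h1
    rw [← h1]
    exact one_pos
  · show V (n + (2 * k + 3)) 0 = _
    have h1 := hshift (2 * k + 2) (n + 1) le_rfl
    rw [show n + (2 * k + 3) = n + 1 + (2 * k + 2) by omega, ← h1, hVs n]
    have h2 : F n (V n) (2 * k + 2) = α n / ∏ i ∈ range (k + 1), V n (k + 2 + i) +
        1 / ∏ i ∈ range (k + 1), V n i := if_neg (by omega)
    rw [h2]
    have e1 : ∏ i ∈ range (k + 1), V n (k + 2 + i) =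
        ∏ j ∈ range (k + 1), V (n + (k + 2) + j) 0 := by
      refine Finset.prod_congr rfl fun j hj => ?_
      rw [mem_range] at hj
      rw [hshift _ _ (by omega)]
      congr 1
      omega
    have e2 : ∏ i ∈ range (k + 1), V n i = ∏ j ∈ range (k + 1), V (n + j) 0 := by
      refine Finset.prod_congr rfl fun j hj => ?_
      rw [mem_range] at hj
      rw [hshift _ _ (by omega)]
    rw [e1, e2]

end

/-- **Answer to Q1: for every `k` there are no `p ≥ 2` and no nonnegative coefficients of prime
period `p` for which each positive solution tends to a `(k+2)`-periodic solution.**  Moreover no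
positive solution at all is asymptotic to a `(k+2)`-periodic real sequence. -/
theorem result (k : ℕ) :
    {q : ℕ × (ℕ → ℝ) | 2 ≤ q.1 ∧ (∀ n, 0 ≤ q.2 n) ∧ IsPrimePeriod q.2 q.1 ∧
      ∀ x, IsPositiveSolution k q.2 x → TendsToPeriodicSolution k q.2 x} = ∅ ∧
    ∀ (p : ℕ) (α : ℕ → ℝ), 2 ≤ p → (∀ n, 0 ≤ α n) → IsPrimePeriod α p →
      (∃ x, IsPositiveSolution k α x) ∧
      ∀ x, IsPositiveSolution k α x → ∀ y : ℕ → ℝ, (∀ n, y (n + (k + 2)) = y n) →
        ¬ Tendsto (fun n => x n - y n) atTop (𝓝 0) := by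
  constructor
  · rw [Set.eq_empty_iff_forall_notMem]
    rintro ⟨p, α⟩ ⟨h1, h2, h3, h4⟩
    obtain ⟨x, hx⟩ := exists_solution k α
    obtain ⟨y, hy, hper, -⟩ := h4 x hx
    exact no_periodic h2 h3 h1 hy hper
  · intro p α hp2 hα hp
    refine ⟨exists_solution k α, fun x hx y hper hlim => ?_⟩
    exact no_periodic hα hp hp2 (limit_solution hα hp hx hper hlim) hper

end Pool.Agent.Results.MP_93a94a_an.Never
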